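import Pool.Agent.Lib.MP_50bb2e_nt.MT.H31.All
import Pool.Agent.Lib.MP_50bb2e_nt.MT.H74.One

/-!
Question Q1 (100 percent of the quadratic twists have the least possible central order) is
equivalent to apparently much stronger and much weaker statements: all twists by a finite family
simultaneously, and one twist of almost every coset in a tower of multiquadratic fields.
-/

namespace Pool.Agent.Results.MP_50bb2e_nt.MultiquadraticTowers

open NumberField IsDedekindDomain Filter Topology
open Pool.Agent.Lib.MP_50bb2e_nt.MT

theorem result :
    ∀ (F : Type) [Field F] [NumberField F] (o : Quad F → ℕ), LocalParity o →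
      -- finite families of twists
      (Q1 o ↔ ∀ Psi : Set (Quad F), Psi.Finite →
        DensityOne {q | ∀ psi ∈ Psi, o (q * psi) < 2} (Set.univ : Set (Quad F))) ∧
      -- towers: one twist of almost every coset is enough
      (∀ R : Rule F, Q1 o ↔ ∀ psi : ℕ → Quad F, Obeys R psi → ∃ k : ℕ,
        DensityOne {q | ∃ I ∈ (Finset.range k).powerset, o (q * ∏ i ∈ I, psi i) < 2}
          (Set.univ : Set (Quad F))) ∧
      -- towers: the order over the multiquadratic field
      (∀ R : Rule F, Q1 o ↔ ∀ psi : ℕ → Quad F, Obeys R psi → ∃ k : ℕ,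
        DensityOne {q | towerOrder o psi k q < 2 * 2 ^ k} (Set.univ : Set (Quad F))) := by
  intro F _ _ o hL
  have h0 : Q1 o ↔ D o 2 := All.qon F o hL
  refine ⟨h0.trans (All.fam F o 2), fun R => h0.trans ?_, fun R => h0.trans (All.twr F o 2 R)⟩
  exact H74.one All.seq All.den F o 2 R

end Pool.Agent.Results.MP_50bb2e_nt.MultiquadraticTowers
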