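import Pool.Agent.Lib.MP_50bb2e_nt.Tow.Fin
import Pool.Agent.Lib.MP_50bb2e_nt.Tow.Seq

/-!
Non-vanishing of quadratic twists of weight 2 cuspidal eigenforms over an arbitrary number field
(several forms, and fixed ray class twists, at once): families of quadratic characters supported
on good primes, and groups of such characters (multiquadratic extensions).
-/

namespace Pool.Agent.Results.MP_50bb2e_nt.NumberFieldTwists

open NumberField Filter Topology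
open Pool.Agent.Lib.MP_50bb2e_nt.PP (Pr nm QChar Fam Closed)
open Pool.Agent.Lib.MP_50bb2e_nt.Imq (CValI NonVanC)
open Pool.Agent.Lib.MP_50bb2e_nt.Anf (Form RCharN)

/-- All entries of the tuple `x` lie in one group of characters with the property `Q`. -/
def InGroup {K : Type} [Field K] [NumberField K] (Q : QChar K → Prop) {k : ℕ}
    (x : Fin k → QChar K) : Prop :=
  ∃ W : Set (QChar K), Closed W ∧ (∀ m, x m ∈ W) ∧ ∀ χ ∈ W, Q χ

open Classical in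
theorem result :
    ∀ (K : Type) [Field K] [NumberField K],
    ∀ v : AbsoluteValue ℂ ℝ, (∀ x y : ℂ, v (x + y) ≤ max (v x) (v y)) → v 2 < 1 →
    ∀ (ι : Type) [Fintype ι] [Nonempty ι] (n D : ι → Ideal (𝓞 K))
      (c ψ : ι → Ideal (𝓞 K) → ℂ),
    (∀ t, n t ≠ ⊥ ∧ D t ≠ ⊥ ∧ Form (n t) (c t) ∧ RCharN (D t) (ψ t)) →
    (∀ t, ∃ l : ℂ, l ≠ 0 ∧ CValI (fun a => c t a * ψ t a) l) →
    ∃ j : ℕ, ∀ P : Set (Pr K),
      (∀ u ∈ P, Odd (nm u) ∧ ∀ t, ¬ n t ≤ u.asIdeal ∧ ¬ D t ≤ u.asIdeal ∧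
        v (1 - c t u.asIdeal * ψ t u.asIdeal + ψ t u.asIdeal ^ 2) = 1) →
      -- `k`-tuples in a group of good characters: positive lower natural density
      (∀ S : Set (Pr K), S.Finite →
        (∃ a : ℝ, 0 < a ∧ ∀ᶠ Y : ℕ in atTop, a * Y / Real.log Y ≤
          Set.ncard {u : Pr K | Y < nm u ∧ nm u ≤ 2 * Y ∧ ∃ χ ∈ Fam P S, χ.T = {u}}) →
        ∀ k : ℕ, ∃ κ : ℝ, 0 < κ ∧ ∀ᶠ X : ℕ in atTop,
          κ * (Set.ncard {χ : QChar K | χ ∈ Fam P S ∧ χ.cond ≤ X} : ℝ) ^ k ≤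
            Set.ncard {x : Fin k → QChar K | (∀ m, x m ∈ Fam P S ∧ (x m).cond ≤ X) ∧
              InGroup (fun χ => ∀ t, NonVanC (fun a => c t a * ψ t a) χ) x}) ∧
      -- `k`-tuples in a product of finite groups of characters
      (∀ (k : ℕ) (V : Fin k → Finset (QChar K)), (∀ m, (V m).Nonempty ∧
        (∀ χ ∈ V m, (χ.T : Set (Pr K)) ⊆ P) ∧ Closed (V m : Set (QChar K))) →
        ∏ m, (V m).card ≤ 2 ^ ((2 ^ k - 1) * (j + 1) - k) *
          ((Fintype.piFinset V).filter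
            (InGroup (fun χ => ∀ t, NonVanC (fun a => c t a * ψ t a) χ))).card) ∧
      -- Dirichlet density
      (∀ S : Set (Pr K), ∀ σ : ℝ, 0 ≤ σ →
        ∑' χ : Fam P S, ENNReal.ofReal ((χ.1.cond : ℝ) ^ (-σ)) ≤
          2 ^ j * ∑' χ : {χ : QChar K // χ ∈ Fam P S ∧
              ∀ t, NonVanC (fun a => c t a * ψ t a) χ},
            ENNReal.ofReal ((χ.1.cond : ℝ) ^ (-σ))) ∧
      -- infinite groups of good characters
      (∀ W₀ : Finset (QChar K), W₀.Nonempty → Closed (W₀ : Set (QChar K)) →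
        (∀ χ ∈ W₀, (χ.T : Set (Pr K)) ⊆ P ∧ ∀ t, NonVanC (fun a => c t a * ψ t a) χ) →
        ∀ V : ℕ → Set (QChar K), (∀ m, (V m).Infinite ∧ Closed (V m) ∧
          ∀ χ ∈ V m, (χ.T : Set (Pr K)) ⊆ P) →
        ∃ W : Set (QChar K), Closed W ∧ (W₀ : Set (QChar K)) ⊆ W ∧
          (∀ χ ∈ W, (χ.T : Set (Pr K)) ⊆ P ∧ ∀ t, NonVanC (fun a => c t a * ψ t a) χ) ∧
          ∃ η : ℕ → QChar K, (∀ m, η m ∈ V m ∧ η m ∈ W ∧ (η m).T.Nonempty ∧
            ∀ χ ∈ W₀, Disjoint (η m).T χ.T) ∧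
            Pairwise fun i k => Disjoint (η i).T (η k).T) ∧
      -- examples of infinite groups
      (∀ P' S : Set (Pr K), P' ⊆ P → P'.Infinite → S.Finite →
        (Fam P' S).Infinite ∧ Closed (Fam P' S)) := by
  intro K _ _ v hna h2 ι _ _ n D c ψ hf hl
  obtain ⟨j, hj⟩ := Pool.Agent.Lib.MP_50bb2e_nt.Tow.fin_all
    Pool.Agent.Lib.MP_50bb2e_nt.Tow.psin K v hna h2 ι n D c ψ hf hl
  refine ⟨j, fun P hP => ⟨(hj P hP).1, (hj P hP).2.1, (hj P hP).2.2, ?_, ?_⟩⟩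
  · intro W₀ hW₀ hW₀c hW₀g V hV
    exact Pool.Agent.Lib.MP_50bb2e_nt.Tow.main_seq v hna h2 ι n D c ψ hf P hP W₀ hW₀ hW₀c hW₀g
      V hV
  · intro P' S hP' hi hS
    exact ⟨Pool.Agent.Lib.MP_50bb2e_nt.Tow.fam_infinite P' S (fun u hu => (hP u (hP' hu)).1) hi hS,
      (Pool.Agent.Lib.MP_50bb2e_nt.Tow.closed_iff _).2
        (Pool.Agent.Lib.MP_50bb2e_nt.Tow.fam_closed P' S)⟩

end Pool.Agent.Results.MP_50bb2e_nt.NumberFieldTwists
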