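import Pool.Agent.Lib.MP_50bb2e_nt.Hgp.Tow
import Pool.Agent.Lib.MP_50bb2e_nt.Hgp.Blocks
import Pool.Agent.Lib.MP_50bb2e_nt.Hgp.NFbase

/-!
Sign `-1`: order exactly one in a positive proportion of thin families of quadratic twists of
elliptic curves, from systems of Heegner points. First part: number fields (the definitions are in
`Hgp/NFdefs.lean`: `NF.Heegner`, `NF.Many`, ...); second part: the field of rational numbers, with
several curves at once (definitions below).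
-/

namespace Pool.Agent.Results.MP_50bb2e_nt.OrderOne

open Complex
open Pool.Agent.Lib.MP_50bb2e_nt Pool.Agent.Lib.MP_50bb2e_nt.Hgp

noncomputable section

/-- The field of algebraic numbers. -/
abbrev Qb : Type := AlgebraicClosure ℚ

noncomputable instance : DecidableEq Qb := Classical.decEq Qb

/-- The group `E(L)`. -/
abbrev Pt (E : WeierstrassCurve ℚ) (L : Type) [Field L] [Algebra ℚ L] : Type :=
  WeierstrassCurve.Affine.Point (E.baseChange L)

/-- The action of an automorphism of the algebraic numbers on the points of `E`. -/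
def act (E : WeierstrassCurve ℚ) (g : Qb ≃ₐ[ℚ] Qb) : Pt E Qb →+ Pt E Qb :=
  WeierstrassCurve.Affine.Point.map (W' := E) (g : Qb →ₐ[ℚ] Qb)

/-- The Dirichlet series `∑ e(n) n^(-s)` has an entire continuation, of order `k` at `s = 1`. -/
def Ord (e : ℕ → ℂ) (k : ℕ) : Prop :=
  ∃ L : ℂ → ℂ, Differentiable ℂ L ∧
    (∃ σ : ℝ, ∀ s : ℂ, σ < s.re → HasSum (fun n : ℕ => e n * (n : ℂ) ^ (-s)) (L s)) ∧
    analyticOrderAt L 1 = k

/-- An elliptic curve `E` over `ℚ`, a quadratic field `K = ℚ(δ)`, `δ^2 = d`, and points `z T` of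
`E`, for finite sets `T` of good primes, over `K_T`, the extension of `K` by the square roots `r p`
of `p* = (-1)^((p-1)/2) p`, `p` in `T`. Example: the traces to `K_T` of the Heegner points of
conductor `∏ T`, for a fundamental discriminant `d < -4`. -/
structure Heegner where
  E : WeierstrassCurve ℚ
  ell : E.IsElliptic
  /-- the conductor of `E` -/
  N : ℕ
  /-- the root number of `E` -/
  w : ℤ
  d : ℤ
  /-- the quadratic character of `K` -/
  ψ : DirichletCharacter ℤ d.natAbs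
  δ : Qb
  r : ℕ → Qb
  /-- `σ U` negates `r p` for the good primes `p` in `U` and fixes `δ` and the others -/
  σ : Finset ℕ → (Qb ≃ₐ[ℚ] Qb)
  z : Finset ℕ → Pt E Qb

/-- A good prime: odd, not dividing `N d`, with `a_p` odd, where `L(E, s) = ∑ a_n n^(-s)`. -/
def Heegner.Good (x : Heegner) (p : ℕ) : Prop :=
  p.Prime ∧ p ≠ 2 ∧ ¬ (p : ℤ) ∣ x.N * x.d ∧ Odd (x.E.LFunction p)

/-- `p* = (-1)^((p-1)/2) p` -/
def star (p : ℕ) : ℤ := (-1) ^ ((p - 1) / 2) * p

/-- The norm relation from `K_(T, p)` to `K_T`, where `φ` is a Frobenius at `p` on `K_T` if `p`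
splits in `K` (otherwise `1 + (d / p) = 0`). -/
def Heegner.NormRel (x : Heegner) (T : Finset ℕ) (p : ℕ) (φ : Qb ≃ₐ[ℚ] Qb) : Prop :=
  x.z (insert p T) + act x.E (x.σ {p}) (x.z (insert p T)) =
    x.E.LFunction p • x.z T - (1 + jacobiSym x.d p) • act x.E φ (x.z T)

/-- The properties of the Heegner points (Gross; Perrin-Riou): field of definition and the norm
relations. -/
structure Heegner.Norm (x : Heegner) : Prop where
  sqrt_d : x.δ ^ 2 = (x.d : Qb)
  char : ∀ p : ℕ, p.Prime → p ≠ 2 → ¬ (p : ℤ) ∣ x.d →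
    x.ψ (p : ZMod x.d.natAbs) = jacobiSym x.d p
  sqrt_p : ∀ p, x.r p ^ 2 = (star p : Qb)
  flip : ∀ U : Finset ℕ, x.σ U x.δ = x.δ ∧
    ∀ p, x.Good p → x.σ U (x.r p) = if p ∈ U then -x.r p else x.r p
  fixed : ∀ T : Finset ℕ, (∀ p ∈ T, x.Good p) → ∀ g : Qb ≃ₐ[ℚ] Qb, g x.δ = x.δ →
    (∀ p ∈ T, g (x.r p) = x.r p) → act x.E g (x.z T) = x.z T
  norm : ∀ T : Finset ℕ, (∀ q ∈ T, x.Good q) → ∀ p, x.Good p → p ∉ T →
    ∀ φ : Qb ≃ₐ[ℚ] Qb, φ x.δ = x.δ → (∀ q ∈ T, φ (x.r q) = (jacobiSym (star q) p : Qb) * x.r q) →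
    x.NormRel T p φ

/-- The component `∑ χ(g) g(z T)`, the sum over `Gal(K_T / K)`, for the character
`χ = (· / ∏ T)`, that is `χ (σ U) = (-1)^|U|`. -/
def Heegner.comp (x : Heegner) (T : Finset ℕ) : Pt x.E Qb :=
  ∑ U ∈ T.powerset, ((-1 : ℤ) ^ U.card) • act x.E (x.σ U) (x.z T)

/-- A point of infinite order. -/
def Inf {A : Type} [AddCommGroup A] (P : A) : Prop := ∀ n : ℕ, 0 < n → n • P ≠ 0

/-- The point `z ∅` over `K` is not `2 ^ (j + 1)` times a point over `K`. -/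
def Heegner.Undiv (x : Heegner) (j : ℕ) : Prop :=
  ∀ Q : Pt x.E Qb, (∀ g : Qb ≃ₐ[ℚ] Qb, g x.δ = x.δ → act x.E g Q = Q) →
    2 ^ (j + 1) • Q ≠ x.z ∅

/-- `L(E, s)` twisted by the Jacobi symbol `(· / D)` has order `k` at `s = 1`. -/
def Heegner.OrdE (x : Heegner) (D : ℕ) (k : ℕ) : Prop :=
  Ord (fun n => (x.E.LFunction n : ℂ) * (jacobiSym (n : ℤ) D : ℂ)) k

/-- `L(E, s)` twisted by `(· / D)` and by the quadratic character of `K` has order `k` at
`s = 1`. -/
def Heegner.OrdK (x : Heegner) (D : ℕ) (k : ℕ) : Prop :=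
  Ord (fun n => (x.E.LFunction n : ℂ) * (jacobiSym (n : ℤ) D : ℂ) *
    ((x.ψ (n : ZMod x.d.natAbs) : ℤ) : ℂ)) k

/-- The formula of Gross and Zagier (Zhang; Yuan, Zhang, Zhang) for the characters `(· / ∏ T)`:
if the component is of infinite order, then the product of the two twisted `L`-functions of `E`
has order one. -/
def Heegner.GrossZagier (x : Heegner) : Prop :=
  ∀ T : Finset ℕ, (∀ p ∈ T, x.Good p) → Inf (x.comp T) →
    ∃ i k : ℕ, x.OrdE (∏ p ∈ T, p) i ∧ x.OrdK (∏ p ∈ T, p) k ∧ i + k = 1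

/-- The parity of the order is given by the root number `w (-N / D)` of the twist. -/
def Heegner.Parity (x : Heegner) : Prop :=
  ∀ T : Finset ℕ, (∀ p ∈ T, x.Good p) → ∀ k, x.OrdE (∏ p ∈ T, p) k →
    (-1) ^ k = x.w * jacobiSym (-x.N) (∏ p ∈ T, p : ℕ)

/-- Both twists of `E`, by `(· / D)` and by `(· / D)` times the character of `K`, have the least
order which is allowed by the root numbers (these are opposite): `1` for the sign `-1` and `0` for
the sign `1`. -/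
def Heegner.Least (x : Heegner) (D : ℕ) : Prop :=
  if x.w * jacobiSym (-x.N) D = -1 then x.OrdE D 1 ∧ x.OrdK D 0 else x.OrdE D 0 ∧ x.OrdK D 1

/-- `P` has positive lower relative density in the set of the primes. -/
def PosDensity (P : Set ℕ) : Prop :=
  ∃ c : ℝ, 0 < c ∧ ∃ n₀ : ℕ, ∀ n : ℕ, n₀ ≤ n →
    c * n / Real.log n ≤ (({p | p ∈ P ∧ p ≤ n} : Set ℕ).ncard : ℝ)

open Classical in
/-- The square-free numbers `D ≤ X` all of whose prime factors lie in `P`. -/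
def Fam (P : Set ℕ) (X : ℕ) : Finset ℕ :=
  (Finset.Icc 1 X).filter (fun D => Squarefree D ∧ ∀ p ∈ D.primeFactors, p ∈ P)

open Classical in
/-- A positive proportion of the products `D` of primes of `A` has the property `R`: (1) in the
families `Fam P X`, for all `X`, with sign conditions `ε t`; (2) in all finite cubes, with weights
`w`, with the constant `2 ^ (- j - e)`. (3) For every sequence of infinite sets `P m` of primes of
`A` there are pairwise coprime `D m > 1`, products of primes of `P m`, all of whose finite products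
have the property `R`. For `j = 0` all products `D` have the property. -/
def Lots (A : Set ℕ) (j : ℕ) (R : ℕ → Prop) : Prop :=
  (j = 0 → ∀ D : ℕ, Squarefree D → (∀ p ∈ D.primeFactors, p ∈ A) → R D) ∧
  (∀ P : Set ℕ, P ⊆ A → PosDensity P →
    ∀ (e : ℕ) (ε : Fin e → ℕ → ℤ), (∀ t, ∀ p ∈ P, ε t p = 1 ∨ ε t p = -1) →
    ∃ c : ℝ, 0 < c ∧ ∀ X : ℕ, 1 ≤ X → c * ((Fam P X).card : ℝ) ≤
      (((Fam P X).filter (fun D => (∀ t, ∏ p ∈ D.primeFactors, ε t p = 1) ∧ R D)).card : ℝ)) ∧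
  (∀ T : Finset ℕ, (T : Set ℕ) ⊆ A →
    ∀ (e : ℕ) (ε : Fin e → ℕ → ℤ), (∀ t, ∀ p ∈ T, ε t p = 1 ∨ ε t p = -1) →
    ∀ w : ℕ → ℝ, (∀ p ∈ T, 0 ≤ w p ∧ w p ≤ 1) →
      ∏ p ∈ T, (1 + w p) ≤ 2 ^ (j + e) * ∑ S ∈ T.powerset,
        if (∀ t, ∏ p ∈ S, ε t p = 1) ∧ R (∏ p ∈ S, p) then ∏ p ∈ S, w p else 0) ∧
  ∀ P : ℕ → Set ℕ, (∀ m, (P m).Infinite ∧ P m ⊆ A) → ∃ D : ℕ → ℕ,
    (∀ m, 1 < D m ∧ Squarefree (D m) ∧ ∀ p ∈ (D m).primeFactors, p ∈ P m) ∧
    (Pairwise fun i k => (D i).Coprime (D k)) ∧ ∀ I : Finset ℕ, R (∏ i ∈ I, D i)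

open Pool.Agent.Lib.MP_50bb2e_nt in
/-- the system of one curve -/
theorem sys (x : Heegner) (hN : x.Norm) (h2 : ∀ Q : Pt x.E ℚ, 2 • Q = 0 → Q = 0)
    (A : Set ℕ) (hA : ∀ p ∈ A, x.Good p) :
    (Inf (x.z ∅) → ∃ j, x.Undiv j) ∧ ∀ j, x.Undiv j →
    ∀ v : AbsoluteValue ℂ ℝ, Qtw.Dyadic v → ∃ ℓ : Finset ℕ → ℝ, v 2 ^ j ≤ ℓ ∅ ∧
      (∀ S : Finset ℕ, (S : Set ℕ) ⊆ A → ℓ S ≠ 0 → Inf (x.comp S)) ∧ Low.HasLip v A 1 ℓ := by
  classical
  have halg : Algebra.IsAlgebraic ℚ Qb := AlgebraicClosure.isAlgebraic ℚ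
  have hc : IsAlgClosure ℚ Qb := ⟨inferInstance, inferInstance⟩
  have hn : Normal ℚ Qb := IsAlgClosure.normal ℚ Qb
  have hgal : IsGalois ℚ Qb := ⟨⟩
  have hδ : ∃ q : ℚ, x.δ ^ 2 = algebraMap ℚ Qb q :=
    ⟨x.d, by rw [hN.sqrt_d, map_intCast]⟩
  have hr : ∀ p, ∃ q : ℚ, x.r p ^ 2 = algebraMap ℚ Qb q := fun p =>
    ⟨star p, by rw [hN.sqrt_p, map_intCast]⟩
  have hstar : ∀ p, x.Good p → star p ≠ 0 := by
    intro p hp
    unfold star
    exact mul_ne_zero (pow_ne_zero _ (by norm_num)) (by exact_mod_cast hp.1.ne_zero)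
  have hr0 : ∀ p ∈ A, x.r p ≠ 0 := by
    intro p hp h
    have h1 := hN.sqrt_p p
    rw [h] at h1
    have h3 : (star p : Qb) = 0 := by rw [← h1]; ring
    exact hstar p (hA p hp) (by exact_mod_cast h3)
  have hjac : ∀ p q, x.Good p → x.Good q → q ≠ p →
      jacobiSym (star q) p = 1 ∨ jacobiSym (star q) p = -1 := by
    intro p q hp hq hqp
    refine jacobiSym.eq_one_or_neg_one ?_
    have h1 : Nat.Coprime q p := (Nat.coprime_primes hq.1 hp.1).2 hqp
    unfold star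
    rw [Int.gcd_comm]
    have h3 : IsCoprime (q : ℤ) (p : ℤ) := Nat.isCoprime_iff_coprime.2 h1
    have h4 : IsCoprime ((-1 : ℤ) ^ ((q - 1) / 2) * q) (p : ℤ) := by
      refine IsCoprime.mul_left ?_ h3
      exact (IsCoprime.neg_left isCoprime_one_left).pow_left
    rw [Int.gcd_comm]
    exact Int.isCoprime_iff_gcd_eq_one.1 h4
  have hs := Hgp.ell_sys x.E x.ell x.δ hδ x.r hr A hr0 x.σ (fun U => (hN.flip U).1)
    (fun U _ p hp => (hN.flip U).2 p (hA p hp)) x.z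
    (fun T hT g h1 h3 => hN.fixed T (fun p hp => hA p (hT hp)) g h1 h3)
    (by
      intro T hT p hp hpT
      have hpg := hA p hp
      refine ⟨x.E.LFunction p, 1 + jacobiSym x.d p,
        x.σ (T.filter (fun q => jacobiSym (star q) p = -1)), (hN.flip _).1, hpg.2.2.2, ?_, ?_⟩
      · have h1 : jacobiSym x.d p = 1 ∨ jacobiSym x.d p = -1 := by
          refine jacobiSym.eq_one_or_neg_one ?_
          have h3 : ¬ (p : ℤ) ∣ x.d := fun h => hpg.2.2.1 (h.mul_left _)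
          have h4 : IsCoprime (p : ℤ) x.d :=
            (Nat.prime_iff_prime_int.1 hpg.1).coprime_iff_not_dvd.2 h3
          exact Int.isCoprime_iff_gcd_eq_one.1 h4.symm
        rcases h1 with h1 | h1 <;> rw [h1] <;> decide
      · refine hN.norm T (fun q hq => hA q (hT hq)) p hpg hpT _ (hN.flip _).1 fun q hq => ?_
        have hqp : q ≠ p := fun h => hpT (h ▸ hq)
        rw [(hN.flip _).2 q (hA q (hT hq))]
        rcases hjac p q hpg (hA q (hT hq)) hqp with h | h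
        · have h3 : q ∉ T.filter (fun q => jacobiSym (star q) p = -1) := by
            rw [Finset.mem_filter, h]
            rintro ⟨-, h4⟩
            norm_num at h4
          rw [if_neg h3, h]
          push_cast
          ring
        · have h3 : q ∈ T.filter (fun q => jacobiSym (star q) p = -1) :=
            Finset.mem_filter.2 ⟨hq, h⟩
          rw [if_pos h3, h]
          push_cast
          ring)
    (fun Q hQ h3 => Hgp.two_of_rat x.E h2 Q hQ h3)
  have hund : ∀ j, x.Undiv j ↔ Hgp.Und x.z (Hgp.Gd ℚ x.δ) j := by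
    intro j
    constructor
    · intro h q hq he
      refine h q (fun g hg => hq ⟨g, hg⟩) ?_
      rw [← he, ← natCast_zsmul]
      push_cast
      rfl
    · intro h Q hQ he
      refine h Q (fun g => hQ g g.2) ?_
      rw [← he, ← natCast_zsmul]
      push_cast
      rfl
  refine ⟨fun hb => ?_, fun j hj v hv => ?_⟩
  · obtain ⟨j, hj⟩ := Hgp.inf_und hs hb
    exact ⟨j, (hund j).2 hj⟩
  have hj' := (hund j).1 hj
  obtain ⟨-, h1, h3⟩ := Hgp.core hs (Hgp.und_inf hs hj') hv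
  refine ⟨_, Hgp.core_base hs hv hj', fun S hS hne => ?_, h3⟩
  have h4 := h1 S hS hne
  intro n hn
  have h5 : Hgp.tr (fun p => (Hgp.sgn (x.r p) (hr p)).comp (Hgp.Gd ℚ x.δ).subtype)
      (fun U => (⟨x.σ U, (hN.flip U).1⟩ : Hgp.Gd ℚ x.δ)) x.z S S = x.comp S := by
    unfold Hgp.tr Heegner.comp
    refine Finset.sum_congr rfl fun U hU => ?_
    have hU' := Finset.mem_powerset.1 hU
    have h6 : Hgp.chi (fun p => (Hgp.sgn (x.r p) (hr p)).comp (Hgp.Gd ℚ x.δ).subtype) S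
        (⟨x.σ U, (hN.flip U).1⟩ : Hgp.Gd ℚ x.δ) = (-1) ^ U.card := by
      unfold Hgp.chi
      have h7 : ∀ p ∈ S, (((fun p => (Hgp.sgn (x.r p) (hr p)).comp (Hgp.Gd ℚ x.δ).subtype) p
          (⟨x.σ U, (hN.flip U).1⟩ : Hgp.Gd ℚ x.δ) : ℤˣ) : ℤ) = if p ∈ U then -1 else 1 := by
        intro p hp
        have h8 := hs.sig U (fun q hq => hS (hU' hq)) p (hS hp)
        rw [h8]
        split_ifs <;> rfl
      rw [Finset.prod_congr rfl h7, Finset.prod_ite_mem, Finset.inter_eq_right.2 hU',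
        Finset.prod_const]
    rw [h6]
    rfl
  rw [← h5]
  exact h4 n hn

open Classical in
theorem result :
    -- number fields
    (∀ (F : Type) [Field F] [NumberField F] (x : NF.Heegner F), x.Norm →
      (∀ Q : NF.Pt x.E F, 2 • Q = 0 → Q = 0) →
      (NF.Inf x.yK → ∃ j : ℕ, x.Undiv j) ∧
      ∀ j : ℕ, x.Undiv j → ∀ P : Set (PP.Pr F), (∀ v ∈ P, x.Good v) →
        -- the components are of infinite order
        NF.Many P j (fun χ => NF.Inf (x.comp χ)) ∧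
        -- the orders of the `L`-functions
        (x.GrossZagier → x.Parity → NF.Many P j x.Least)) ∧
    -- the field of rational numbers
    (∀ (ι : Type) [Fintype ι] [Nonempty ι] (x : ι → Heegner), (∀ i, (x i).Norm) →
      (∀ i, ∀ Q : Pt (x i).E ℚ, 2 • Q = 0 → Q = 0) →
      (∀ i, Inf ((x i).z ∅) → ∃ j, (x i).Undiv j) ∧
      ∀ j : ι → ℕ, (∀ i, (x i).Undiv (j i)) →
        Lots {p | ∀ i, (x i).Good p} (∑ i, j i) (fun D => ∀ i, Inf ((x i).comp D.primeFactors)) ∧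
        ((∀ i, (x i).GrossZagier ∧ (x i).Parity) →
          Lots {p | ∀ i, (x i).Good p} (∑ i, j i) (fun D => ∀ i, (x i).Least D))) := by
  refine ⟨fun F _ _ x hN h2 => NF.main x hN h2, ?_⟩
  intro ι _ _ x hN h2
  obtain ⟨v, hv⟩ := Pool.Agent.Lib.MP_50bb2e_nt.Hgp.exists_dyadic
  set A : Set ℕ := {p | ∀ i, (x i).Good p} with hA
  refine ⟨fun i => (sys (x i) (hN i) (h2 i) A (fun p hp => hp i)).1, fun j hj => ?_⟩
  have hsys := fun i => (sys (x i) (hN i) (h2 i) A (fun p hp => hp i)).2 (j i) (hj i) v hv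
  choose ℓ hℓ0 hℓ1 hℓ2 using hsys
  have hlip := Pool.Agent.Lib.MP_50bb2e_nt.Hgp.hasLip_prod hv Finset.univ ℓ (fun i _ => hℓ2 i)
  have hv2 : 0 < v 2 := v.pos two_ne_zero
  have hbig : v 2 ^ (∑ i, j i) ≤ ∏ i, ℓ i ∅ := by
    rw [← Finset.prod_pow_eq_pow_sum]
    exact Finset.prod_le_prod (fun i _ => pow_nonneg hv2.le _) fun i _ => hℓ0 i
  have hpos : 0 < ∏ i, ℓ i ∅ := (pow_pos hv2 _).trans_le hbig
  have hd : v 2 ^ (∑ i, j i + 1) * 1 < ∏ i, ℓ i ∅ := by
    rw [mul_one, pow_succ]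
    refine lt_of_lt_of_le ?_ hbig
    exact mul_lt_of_lt_one_right (pow_pos hv2 _) hv.2
  have hprime : ∀ p ∈ A, p.Prime := by
    intro p hp
    obtain ⟨i0⟩ := ‹Nonempty ι›
    exact (hp i0).1
  have key : ∀ R : ℕ → Prop,
      (∀ S : Finset ℕ, (S : Set ℕ) ⊆ A → (∀ i, Inf ((x i).comp S)) → R (∏ p ∈ S, p)) →
      Lots A (∑ i, j i) R := by
    intro R hR
    have hR' : ∀ S : Finset ℕ, (S : Set ℕ) ⊆ A → ∏ i, ℓ i S ≠ 0 → R (∏ p ∈ S, p) := by
      intro S hS hne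
      refine hR S hS fun i => hℓ1 i S hS ?_
      exact (Finset.prod_ne_zero_iff.1 hne) i (Finset.mem_univ i)
    have h12 := Pool.Agent.Lib.MP_50bb2e_nt.Hgp.parts v hv A hprime 1 _ zero_le_one
      hpos hlip _ hd R hR'
    refine ⟨fun h0 => ?_, h12.1, h12.2,
      Pool.Agent.Lib.MP_50bb2e_nt.Hgp.blk3 hv hprime hpos hlip R hR'⟩
    rw [h0] at h12
    exact Pool.Agent.Lib.MP_50bb2e_nt.Hgp.all_zero h12.2
  refine ⟨key _ ?_, fun hGZ => key _ ?_⟩
  · intro S hS hi i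
    rw [Nat.primeFactors_prod fun p hp => hprime p (hS hp)]
    exact hi i
  · intro S hS hi i
    have hg : ∀ p ∈ S, (x i).Good p := fun p hp => hS hp i
    obtain ⟨a, k, h1, h3, h4⟩ := (hGZ i).1 S hg (hi i)
    have h5 := (hGZ i).2 S hg a h1
    unfold Heegner.Least
    have h6 : (a = 1 ∧ k = 0) ∨ (a = 0 ∧ k = 1) := by omega
    rcases h6 with ⟨rfl, rfl⟩ | ⟨rfl, rfl⟩
    · rw [if_pos (by rw [← h5]; norm_num)]
      exact ⟨h1, h3⟩
    · rw [if_neg (by rw [← h5]; norm_num)]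
      exact ⟨h1, h3⟩

end

end Pool.Agent.Results.MP_50bb2e_nt.OrderOne
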