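import Pool.Agent.Lib.MP_50bb2e_nt.Low.All

/-!
Simultaneous non-vanishing, over the field of rational numbers, of the central values of the
quadratic twists of finitely many holomorphic eigenforms of any even weights, each of them twisted
by a fixed Dirichlet character (so base change to abelian fields is included): a positive
proportion in every cube of twists by good primes, and positive lower natural density.
-/

namespace Pool.Agent.Results.MP_50bb2e_nt.TwistsOverQ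

open Complex

noncomputable section

/-- A nonarchimedean absolute value of the complex numbers with `|2| < 1` (an extension of the
dyadic absolute value). -/
def Dyadic (v : AbsoluteValue ℂ ℝ) : Prop :=
  (∀ x y : ℂ, v (x + y) ≤ max (v x) (v y)) ∧ v 2 < 1

/-- A form: a normalized cusp form `f` of weight `2 κ` for `Γ_0(N)` with Fourier coefficients
`a n`, which is an eigenform of the Hecke operators `T_p`, `p` not dividing `N`, together with a
Dirichlet character `ψ` modulo `q`. -/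
structure Form where
  N : ℕ
  κ : ℕ
  q : ℕ
  f : CuspForm (CongruenceSubgroup.Gamma0 N) (2 * (κ : ℤ))
  a : ℕ → ℂ
  ψ : DirichletCharacter ℂ q
  N_pos : 0 < N
  κ_pos : 0 < κ
  q_pos : 0 < q
  sum : ∀ τ : UpperHalfPlane,
    HasSum (fun n : ℕ => a n * Complex.exp (2 * (Real.pi : ℂ) * I * n * τ)) (f τ)
  zero : a 0 = 0
  one : a 1 = 1
  hecke : ∀ p : ℕ, p.Prime → ¬ p ∣ N → ∀ n : ℕ, ¬ p ∣ n → a (p * n) = a p * a n
  hecke' : ∀ p : ℕ, p.Prime → ¬ p ∣ N → ∀ n : ℕ,
    a (p * (p * n)) + (p : ℂ) ^ (2 * κ - 1) * a n = a p * a (p * n)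

/-- The `L`-series of `f × ψ × (· / D)`, the sum of `a(n) ψ(n) (n / D) n^(-s)` (Jacobi symbol), has
an entire continuation, which does not vanish at the centre `s = κ`. -/
def Form.NonVan (x : Form) (D : ℕ) : Prop :=
  ∃ L : ℂ → ℂ, Differentiable ℂ L ∧
    (∃ σ : ℝ, ∀ s : ℂ, σ < s.re → HasSum (fun n : ℕ =>
      x.a n * x.ψ (n : ZMod x.q) * (jacobiSym (n : ℤ) D : ℂ) * (n : ℂ) ^ (-s)) (L s)) ∧
    L x.κ ≠ 0

/-- `p` is good: an odd prime not dividing `N q` for which the Euler factor of `f × ψ` is a unit at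
`2` (for `ψ = 1`: `a(p)` is a unit). -/
def Form.Good (x : Form) (v : AbsoluteValue ℂ ℝ) (p : ℕ) : Prop :=
  p.Prime ∧ p ≠ 2 ∧ ¬ p ∣ x.N * x.q ∧ v (x.a p) ≤ 1 ∧
    v (1 - x.a p * x.ψ (p : ZMod x.q) + x.ψ (p : ZMod x.q) ^ 2) = 1

/-- `P` has positive lower relative density in the set of the primes. -/
def PosDensity (P : Set ℕ) : Prop :=
  ∃ c : ℝ, 0 < c ∧ ∃ n₀ : ℕ, ∀ n : ℕ, n₀ ≤ n →
    c * n / Real.log n ≤ (({p | p ∈ P ∧ p ≤ n} : Set ℕ).ncard : ℝ)

open Classical in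
/-- The square-free numbers `D ≤ X` all of whose prime factors lie in `P`. -/
def Fam (P : Set ℕ) (X : ℕ) : Finset ℕ :=
  (Finset.Icc 1 X).filter (fun D => Squarefree D ∧ ∀ p ∈ D.primeFactors, p ∈ P)

open Classical in
theorem result :
    ∀ (ι : Type) [Fintype ι] [Nonempty ι] (x : ι → Form), (∀ i, (x i).NonVan 1) →
    ∀ v : AbsoluteValue ℂ ℝ, Dyadic v →
      -- positive lower natural density, for every `X`, with sign conditions
      (∀ P : Set ℕ, (∀ p ∈ P, ∀ i, (x i).Good v p) → PosDensity P →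
        ∀ (e : ℕ) (ε : Fin e → ℕ → ℤ), (∀ t, ∀ p ∈ P, ε t p = 1 ∨ ε t p = -1) →
        ∃ c : ℝ, 0 < c ∧ ∀ X : ℕ, 1 ≤ X → c * ((Fam P X).card : ℝ) ≤
          (((Fam P X).filter (fun D => (∀ t, ∏ p ∈ D.primeFactors, ε t p = 1) ∧
            ∀ i, (x i).NonVan D)).card : ℝ)) ∧
      -- every finite set of good primes, all weights between 0 and 1, one constant
      (∃ d : ℕ, ∀ T : Finset ℕ, (∀ p ∈ T, ∀ i, (x i).Good v p) →
        ∀ (e : ℕ) (ε : Fin e → ℕ → ℤ), (∀ t, ∀ p ∈ T, ε t p = 1 ∨ ε t p = -1) →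
        ∀ w : ℕ → ℝ, (∀ p ∈ T, 0 ≤ w p ∧ w p ≤ 1) →
          ∏ p ∈ T, (1 + w p) ≤ 2 ^ (d + e) * ∑ S ∈ T.powerset,
            if (∀ t, ∏ p ∈ S, ε t p = 1) ∧ ∀ i, (x i).NonVan (∏ p ∈ S, p)
            then ∏ p ∈ S, w p else 0) := by
  intro ι _ _ x hbase v hv
  -- transfer to `Fin r`
  have key := Pool.Agent.Lib.MP_50bb2e_nt.Low.All.final (Fintype.card ι)
    (fun j => (x ((Fintype.equivFin ι).symm j)).N)
    (fun j => (x ((Fintype.equivFin ι).symm j)).κ)
    (fun j => (x ((Fintype.equivFin ι).symm j)).q)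
    (fun j => (x ((Fintype.equivFin ι).symm j)).f)
    (fun j => (x ((Fintype.equivFin ι).symm j)).a)
    (fun j => (x ((Fintype.equivFin ι).symm j)).ψ)
    (fun j => ⟨(x _).N_pos, (x _).κ_pos, (x _).q_pos, (x _).sum, (x _).zero, (x _).one,
      (x _).hecke, (x _).hecke'⟩)
    (fun j => by
      obtain ⟨L, h1, h2, h3⟩ := hbase ((Fintype.equivFin ι).symm j)
      refine ⟨_, h3, L, h1, ?_, rfl⟩
      obtain ⟨σ, hσ⟩ := h2
      refine ⟨σ, fun s hs => ?_⟩
      have h4 := hσ s hs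
      simp only [jacobiSym.one_right, Int.cast_one, mul_one] at h4
      exact h4) v hv
  have hgood : ∀ p : ℕ, (∀ i, (x i).Good v p) →
      Pool.Agent.Lib.MP_50bb2e_nt.Low.Good
        (fun j => (x ((Fintype.equivFin ι).symm j)).N)
        (fun j => (x ((Fintype.equivFin ι).symm j)).q)
        (fun j => (x ((Fintype.equivFin ι).symm j)).a)
        (fun j => (x ((Fintype.equivFin ι).symm j)).ψ) v p := by
    intro p hp
    obtain ⟨i0⟩ := ‹Nonempty ι›
    refine ⟨(hp i0).1, (hp i0).2.1, fun j => ?_⟩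
    obtain ⟨-, -, h1, h2, h3⟩ := hp ((Fintype.equivFin ι).symm j)
    exact ⟨h1, h2, h3⟩
  have hnv : ∀ D : ℕ, (∀ j, Pool.Agent.Lib.MP_50bb2e_nt.Qtw.NonVan
      (x ((Fintype.equivFin ι).symm j)).κ (fun n =>
        (x ((Fintype.equivFin ι).symm j)).a n *
        (x ((Fintype.equivFin ι).symm j)).ψ
          (n : ZMod (x ((Fintype.equivFin ι).symm j)).q) * (jacobiSym (n : ℤ) D : ℂ))) ↔
      ∀ i, (x i).NonVan D := by
    intro D
    constructor
    · intro h i
      obtain ⟨l, hl, L, h1, h2, h3⟩ := h (Fintype.equivFin ι i)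
      rw [Equiv.symm_apply_apply] at h2 h3
      exact ⟨L, h1, h2, by rw [h3]; exact hl⟩
    · intro h j
      obtain ⟨L, h1, h2, h3⟩ := h ((Fintype.equivFin ι).symm j)
      exact ⟨_, h3, L, h1, h2, rfl⟩
  refine ⟨?_, ?_⟩
  · intro P hP hD e ε hε
    obtain ⟨c, hc, h⟩ := key.2 P (fun p hp => hgood p (hP p hp)) hD e ε hε
    refine ⟨c, hc, fun X hX => (h X hX).trans (le_of_eq ?_)⟩
    congr 2
    refine Finset.filter_congr fun D _ => ?_
    rw [hnv D]
  · obtain ⟨d, h⟩ := key.1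
    refine ⟨d, fun T hT e ε hε w hw =>
      (h T (fun p hp => hgood p (hT p hp)) e ε hε w hw).trans (le_of_eq ?_)⟩
    congr 1
    refine Finset.sum_congr rfl fun S _ => ?_
    have := hnv (∏ p ∈ S, p)
    by_cases hc : (∀ t, ∏ p ∈ S, ε t p = 1) ∧ ∀ i, (x i).NonVan (∏ p ∈ S, p)
    · rw [if_pos hc, if_pos ⟨hc.1, this.2 hc.2⟩]
    · rw [if_neg hc, if_neg (fun h => hc ⟨h.1, this.1 h.2⟩)]

end

end Pool.Agent.Results.MP_50bb2e_nt.TwistsOverQ
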